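import Pool.Agent.Helper2_Pak.StmtsK

/-!
# PAK1, module K8: the levers of a solution
-/

namespace Pool.Agent.Helper2_Pak.H68

open Pool.Agent.Helper2_Pack (Motion)
open Pool.Agent.Helper2_Pak

theorem bump_nonneg (t e : ℝ) : 0 ≤ bump t e := le_max_left _ _

theorem bump_le {t : ℝ} (ht : 0 < t) (e : ℝ) : bump t e ≤ t ^ 3 :=
  max_le (by positivity) (by linarith [abs_nonneg e])

theorem bump_zero {t e : ℝ} (h : t ^ 3 ≤ |e|) : bump t e = 0 := max_eq_left (by linarith)

theorem shape_bounds {t : ℝ} (ht : 0 < t) (ht' : t ≤ 1 / 2 ^ 60) {z : ℂ} (hz : z ∈ shape t) :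
    |z.re| ≤ 1 / 2 + t / 16 ∧ |z.im| ≤ 1 / 2 + t / 16 := by
  obtain ⟨h1, h2, h3, h4⟩ := hz
  have ht3 : t ≤ 1 / 1000 := ht'.trans (by norm_num)
  have ht2 : t ^ 2 ≤ t / 1000 := by nlinarith only [ht, ht']
  have hc3 : t ^ 3 ≤ t / 1000 := by
    have : t ^ 3 = t * t ^ 2 := by ring
    rw [this]
    nlinarith only [ht2]
  have n1 : 0 ≤ dent t (z.re + 1 / 4) := le_max_left _ _
  have n2 : 0 ≤ dent t (z.re - 1 / 4) := le_max_left _ _
  have n3 : 0 ≤ chamf t (1 / 2) z.re := le_max_left _ _
  have n4 := bump_le ht (z.re + 1 / 4)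
  have n5 := bump_le ht (z.re - 1 / 4)
  have n6 : 0 ≤ pit (t ^ 3 - t ^ 4) (-t ^ 4) (z.im + 1 / 4) := le_max_left _ _
  have n7 : 0 ≤ pit (t ^ 3 - t ^ 4) (-t ^ 4) (z.im - 1 / 4) := le_max_left _ _
  have n8 : 0 ≤ slit t (1 - t ^ 3 / 4) (z.im + 1 / 16) := le_max_left _ _
  have n9 : 0 ≤ slit t (1 - 3 * t ^ 3 / 4) (z.im - 1 / 16) := le_max_left _ _
  have n10 : 0 ≤ chamf t (hh t) z.im := le_max_left _ _
  have n11 : 0 ≤ pit (t ^ 3 / 2) (-t ^ 3) (z.im + 5 / 16) := le_max_left _ _
  have n12 : 0 ≤ pit (t ^ 3 / 2) (t ^ 3) (z.im + 3 / 16) := le_max_left _ _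
  have n13 : 0 ≤ pit (t ^ 3 / 2) (t ^ 3) (z.im - 3 / 16) := le_max_left _ _
  have n14 : 0 ≤ pit (t ^ 3 / 2) (-t ^ 3) (z.im - 5 / 16) := le_max_left _ _
  unfold lo at h1
  unfold hi at h2
  unfold lf at h3
  unfold rt at h4
  have hh1 : hh t ≤ 1 / 2 + t / 32 := by
    unfold hh
    linarith only [ht, ht2]
  constructor <;> rw [abs_le] <;> constructor <;> linarith only [ht, h3, n6, n7, n8, n9, n10, h4, n11, n12, n13, n14, h1, n1, n2, n3, hh1, h2, hc3, n4, n5]

theorem ort_bounds {w : ℂ} {B : ℝ} (h : |w.re| ≤ B ∧ |w.im| ≤ B) (k : ℕ) :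
    |(Complex.I ^ k * w).re| ≤ B ∧ |(Complex.I ^ k * w).im| ≤ B := by
  induction k with
  | zero => simpa using h
  | succ k ih =>
    have e : Complex.I ^ (k + 1) * w = Complex.I * (Complex.I ^ k * w) := by ring
    rw [e]
    constructor
    · have : (Complex.I * (Complex.I ^ k * w)).re = -(Complex.I ^ k * w).im := by
        rw [Complex.mul_re, Complex.I_re, Complex.I_im]
        ring
      rw [this, abs_neg]
      exact ih.2
    · have : (Complex.I * (Complex.I ^ k * w)).im = (Complex.I ^ k * w).re := by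
        rw [Complex.mul_im, Complex.I_re, Complex.I_im]
        ring
      rw [this]
      exact ih.1

theorem tile_bounds {t : ℝ} (ht : 0 < t) (ht' : t ≤ 1 / 2 ^ 60) {k : ℕ} {v z : ℂ}
    (hz : z ∈ tile t (mk k v)) :
    |z.re - v.re| ≤ 1 / 2 + t / 16 ∧ |z.im - v.im| ≤ 1 / 2 + t / 16 := by
  obtain ⟨w, hw, rfl⟩ := hz
  have := ort_bounds (shape_bounds ht ht' hw) k
  have e : (mk k v).app w = Complex.I ^ k * w + v := rfl
  rw [e, Complex.add_re, Complex.add_im]
  simpa using this

/-- two sets whose common points lie on a graph have disjoint interiors -/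
theorem disj_of_graph {A B : Set ℂ} (f : ℝ → ℝ) (h : ∀ z ∈ A, z ∈ B → z.im = f z.re) :
    Disjoint (interior A) (interior B) := by
  rw [Set.disjoint_left]
  intro z hA hB
  have hO : IsOpen (interior A ∩ interior B) := isOpen_interior.inter isOpen_interior
  obtain ⟨ε, hε, hball⟩ := Metric.isOpen_iff.mp hO z ⟨hA, hB⟩
  have hmem : z + ((ε / 2 : ℝ) : ℂ) * Complex.I ∈ Metric.ball z ε := by
    rw [Metric.mem_ball, dist_eq_norm, add_sub_cancel_left, norm_mul, Complex.norm_I, mul_one,
      Complex.norm_real, Real.norm_of_nonneg (by positivity)]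
    linarith
  have h1 := h z (interior_subset hA) (interior_subset hB)
  have h2 := hball hmem
  have h3 := h _ (interior_subset h2.1) (interior_subset h2.2)
  have e1 : (z + ((ε / 2 : ℝ) : ℂ) * Complex.I).re = z.re := by
    rw [Complex.add_re, Complex.mul_re, Complex.I_re, Complex.I_im, Complex.ofReal_re,
      Complex.ofReal_im]
    ring
  have e2 : (z + ((ε / 2 : ℝ) : ℂ) * Complex.I).im = z.im + ε / 2 := by
    rw [Complex.add_im, Complex.mul_im, Complex.I_re, Complex.I_im, Complex.ofReal_re,
      Complex.ofReal_im]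
    ring
  rw [e1, e2] at h3
  linarith only [hε, h1, h3]

/-- two sets without common points have disjoint interiors -/
theorem disj_of_empty {A B : Set ℂ} (h : ∀ z ∈ A, z ∈ B → False) :
    Disjoint (interior A) (interior B) :=
  disj_of_graph (fun _ => 0) (fun z hA hB => (h z hA hB).elim)

/-- a translated motion -/
noncomputable def trM (h : Motion) (w : ℂ) : Motion := ⟨h.u, h.v + w, h.unit⟩

theorem mem_trM {t : ℝ} {h : Motion} {w z : ℂ} (hz : z ∈ tile t (trM h w)) :
    z - w ∈ tile t h := by
  obtain ⟨y, hy, rfl⟩ := hz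
  refine ⟨y, hy, ?_⟩
  show h.u * y + h.v = h.u * y + (h.v + w) - w
  ring

theorem eL_bounds (σ : Bool) : 14 / 32 ≤ eL σ ∧ eL σ ≤ 18 / 32 := by
  unfold eL
  split <;> norm_num

theorem k8 (hK4 : K4Stmt) (hK5 : K5Stmt) (hK6 : K6Stmt) (hG1 : G1Stmt) : K8Stmt := by
  intro t G x hOK hS hx
  have ht : 0 < t := hS.pos
  obtain ⟨g1, -, -, -, g5, -⟩ := hG1 t G hOK hS
  have ht' : t ≤ 1 / 2 ^ 60 := g1.trans (by norm_num)
  have ht3 : t ≤ 1 / 1000 := ht'.trans (by norm_num)
  have hc3 : t ^ 3 ≤ t / 1000 := by
    have : t ^ 3 = t * t ^ 2 := by ring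
    rw [this]
    have : t ^ 2 ≤ 1 / 1000 := by nlinarith only [ht, g1]
    nlinarith only [ht, g1]
  have hc3' : 0 < t ^ 3 := by positivity
  obtain ⟨k1, k2, -, -, -, -, -⟩ := hK5 t G x hOK hS hx
  obtain ⟨-, -, q3⟩ := hK6 t G x hOK hS hx
  -- the value of a port
  set Y : ℕ → ℝ := fun c =>
    t ^ 4 * ∑ r ∈ (Finset.range G.N).filter (fun r => G.spc c r = true), x c r with hY
  have hYb : ∀ c, c < G.M → ((G.kd c).isL = true ∨ (G.kd c).isR = true) → |Y c| ≤ t ^ 8 := by
    intro c hc h
    have := hx.port c hc h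
    rw [hY]
    simp only
    rw [abs_mul, abs_of_nonneg (by positivity : (0 : ℝ) ≤ t ^ 4)]
    calc t ^ 4 * |∑ r ∈ (Finset.range G.N).filter (fun r => G.spc c r = true), x c r|
        ≤ t ^ 4 * t ^ 4 := mul_le_mul_of_nonneg_left this (by positivity)
      _ = t ^ 8 := by ring
  -- one lever
  have key : ∀ c, c < G.M → (G.kd c).isL = true → ∃ L : Motion, tile t L ⊆ G.cont t ∧
      (∀ z ∈ tile t L, G.N < z.im ∧ c + 1 / 4 ≤ z.re ∧ z.re ≤ c + 7 / 4) ∧
      ∀ c' r, G.pres c' r = true →
        Disjoint (interior (tile t (mk (G.ori c' r) (G.ctr t x c' r)))) (interior (tile t L)) := by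
    intro c hc hL
    obtain ⟨σ, hσ⟩ : ∃ σ, G.kd c = .pL σ := by
      revert hL
      cases h : G.kd c <;> intro hL <;> first | exact ⟨_, rfl⟩ | exact absurd hL (by simp [Kind.isL])
    obtain ⟨hc1, hσ1⟩ := hOK.portL c σ hc hσ
    have hR : (G.kd (c + 1)).isR = true := by rw [hσ1]; rfl
    have hsig : (G.kd c).sig = σ := by rw [hσ]; rfl
    have hsig1 : (G.kd (c + 1)).sig = σ := by rw [hσ1]; rfl
    have hlev := hx.lever c hc hL
    rw [hsig] at hlev
    obtain ⟨h, hh'⟩ := hK4 t (Y c) (Y (c + 1)) σ ht ht' (hYb c hc (Or.inl hL))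
      (hYb (c + 1) hc1 (Or.inr hR)) hlev
    obtain ⟨e1, e2⟩ := eL_bounds σ
    set w : ℂ := ⟨c + eL σ, G.N⟩ with hw
    have hN1 : (1 : ℝ) ≤ G.N := by
      have : 1 ≤ G.N := by unfold Lay.N; omega
      exact_mod_cast this
    -- facts on the points of the lever
    have fact : ∀ z ∈ tile t (trM h w),
        c + eL σ - t / 8 ≤ z.re ∧ z.re ≤ c + 1 + eL σ + t / 8 ∧ G.N + t ^ 3 / 4 ≤ z.im ∧
        z.im ≤ G.N + 1 + t / 8 ∧ G.N + Y c + bump t (z.re - c - 3 / 4) ≤ z.im ∧
        G.N + Y (c + 1) + bump t (z.re - c - 5 / 4) ≤ z.im ∧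
        z.im ≤ G.N + tipH t σ + (1 + t / 4 - tipH t σ) * (|z.re - (c + 1)| / t ^ 7) := by
      intro z hz
      obtain ⟨a1, a2, a3, a4, a5, a6, a7⟩ := hh' _ (mem_trM hz)
      have w1 : (z - w).re = z.re - (c + eL σ) := by rw [Complex.sub_re]
      have w2 : (z - w).im = z.im - G.N := by rw [Complex.sub_im]
      rw [w1] at a1 a2 a5 a6 a7
      rw [w2] at a3 a4 a5 a6 a7
      have f1 : z.re - (c + eL σ) - (1 - eL σ - 1 / 4) = z.re - c - 3 / 4 := by ring
      have f2 : z.re - (c + eL σ) - (1 - eL σ + 1 / 4) = z.re - c - 5 / 4 := by ring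
      have f3 : z.re - (c + eL σ) - (1 - eL σ) = z.re - (c + 1) := by ring
      rw [f1] at a5
      rw [f2] at a6
      rw [f3] at a7
      refine ⟨by linarith only [a1], by linarith only [a2], by linarith only [a3], by linarith only [a4], by linarith only [a5], by linarith only [a6],
        by linarith only [a7]⟩
    -- the floor is low
    have floor : ∀ c', c' < G.M → (G.kd c').isW = false → ∀ s : ℝ, 0 ≤ s → s ≤ 1 →
        G.locFl t c' s ≤ 1 := by
      intro c' hc' hW s hs0 hs1
      unfold Lay.locFl
      rw [if_neg (by rw [hW]; simp)]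
      have r1 : ramp t s ≤ 1 := min_le_left _ _
      have r0 : 0 ≤ ramp t s := by
        unfold ramp
        refine le_min zero_le_one (le_min ?_ ?_)
        · positivity
        · apply div_nonneg _ ht.le
          linarith only [hs1]
      have hf := (abs_le.mp (g5 c' hc').1)
      have b1 := bump_le ht (s - 1 / 4)
      have b2 := bump_le ht (s - 3 / 4)
      have : G.fl t c' * ramp t s ≤ t / 64 := by
        by_cases h0 : 0 ≤ G.fl t c'
        · nlinarith only [r1, h0, hf.2]
        · push Not at h0
          have : G.fl t c' * ramp t s ≤ 0 := mul_nonpos_of_nonpos_of_nonneg h0.le r0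
          linarith only [hc3, hc3', this]
      linarith only [g1, hc3, b1, b2, this]
    refine ⟨trM h w, ?_, ?_, ?_⟩
    · -- inside of the container
      intro z hz
      obtain ⟨a1, a2, a3, a4, -, -, a7⟩ := fact z hz
      left
      rw [Set.mem_iUnion]
      by_cases hre : z.re ≤ c + 1
      · refine ⟨⟨c, hc⟩, ?_⟩
        have s1 : eL σ - t / 8 ≤ z.re - c := by linarith only [a1]
        refine ⟨?_, ?_, ?_, ?_⟩
        · show (c : ℝ) ≤ z.re
          linarith only [g1, e1, a1]
        · exact hre
        · show G.locFl t c (z.re - c) ≤ z.im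
          have := floor c hc (by rw [hσ]; rfl) (z.re - c) (by linarith only [g1, e1, a1]) (by linarith only [hre])
          linarith only [hc3', hN1, a3, this]
        · show z.im ≤ G.locCe t c (z.re - c)
          unfold Lay.locCe
          rw [if_pos hL, hsig, if_neg (by linarith only [hc3, hc3', a1])]
          refine le_min (by linarith only [hc3, hc3', a4]) ?_
          have : |z.re - (c + 1)| = 1 - (z.re - c) := by
            rw [abs_of_nonpos (by linarith only [hre])]
            ring
          rw [this] at a7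
          exact a7
      · push Not at hre
        refine ⟨⟨c + 1, hc1⟩, ?_⟩
        have cast1 : ((c + 1 : ℕ) : ℝ) = c + 1 := by push_cast; ring
        refine ⟨?_, ?_, ?_, ?_⟩
        · show ((c + 1 : ℕ) : ℝ) ≤ z.re
          rw [cast1]
          exact hre.le
        · show z.re ≤ ((c + 1 : ℕ) : ℝ) + 1
          rw [cast1]
          linarith only [g1, e2, a2]
        · show G.locFl t (c + 1) (z.re - ((c + 1 : ℕ) : ℝ)) ≤ z.im
          rw [cast1]
          have := floor (c + 1) hc1 (by rw [hσ1]; rfl) (z.re - (c + 1)) (by linarith only [hre]) (by linarith only [g1, e2, a2])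
          linarith only [hc3', hN1, a3, this]
        · show z.im ≤ G.locCe t (c + 1) (z.re - ((c + 1 : ℕ) : ℝ))
          rw [cast1]
          unfold Lay.locCe
          rw [if_neg (by rw [hσ1]; simp [Kind.isL]), if_pos hR, hsig1, if_pos (by linarith only [hc3, hc3', a2])]
          refine le_min (by linarith only [hc3, hc3', a4]) ?_
          have : |z.re - (c + 1)| = z.re - (c + 1) := abs_of_pos (by linarith only [hre])
          rw [this] at a7
          exact a7
    · intro z hz
      obtain ⟨a1, a2, a3, -, -, -, -⟩ := fact z hz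
      exact ⟨by linarith only [hc3', a3], by linarith only [g1, e1, a1], by linarith only [g1, e2, a2]⟩
    · -- the other tiles
      intro c' r hp
      obtain ⟨p1, p2, -⟩ := k1 c' r hp
      rw [abs_le] at p1 p2
      have htop : ∀ c'' , (G.kd c'').h = 0 → G.top c'' = G.N := by
        intro c'' h0
        unfold Lay.top
        rw [h0, add_zero]
      have hpr : c' < G.M ∧ r < G.top c' := by
        unfold Lay.pres at hp
        simpa using hp
      by_cases hcc : c' = c ∨ c' = c + 1
      · have hh0 : (G.kd c').h = 0 := by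
          rcases hcc with h | h
          · rw [h, hσ]; rfl
          · rw [h, hσ1]; rfl
        have hrN : r < G.N := by
          rw [← htop c' hh0]
          exact hpr.2
        by_cases hr : r = G.N - 1
        · subst hr
          have hport : (G.kd c').isL = true ∨ (G.kd c').isR = true := by
            rcases hcc with h | h
            · rw [h]; exact Or.inl hL
            · rw [h]; exact Or.inr hR
          obtain ⟨o0, o1⟩ := q3 c' hpr.1 hport
          have heven : (G.N - 1) % 2 = 0 := by unfold Lay.N; omega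
          obtain ⟨m1, -⟩ := k2 c' (G.N - 1) hp heven
          have him : (G.ctr t x c' (G.N - 1)).im + hh t = G.N + Y c' := by
            have : (G.ctr t x c' (G.N - 1)).im = G.bot t x c' (G.N - 1) + hh t := by
              unfold Lay.ctr HY
              simp only [o0]
              simp
            rw [this]
            linarith only [o1]
          -- points of the port tile
          have pf : ∀ z ∈ tile t (mk (G.ori c' (G.N - 1)) (G.ctr t x c' (G.N - 1))),
              z.im ≤ G.N + Y c' + bump t (z.re - c' - 1 / 4) + bump t (z.re - c' - 3 / 4) := by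
            rintro z ⟨y, hy, rfl⟩
            obtain ⟨-, y2, -, -⟩ := hy
            rw [o0]
            have e : (mk 0 (G.ctr t x c' (G.N - 1))).app y = y + G.ctr t x c' (G.N - 1) := by
              show Complex.I ^ 0 * y + _ = _
              rw [pow_zero, one_mul]
              rfl
            rw [e, Complex.add_re, Complex.add_im, m1]
            have c1 : 0 ≤ chamf t (1 / 2) y.re := le_max_left _ _
            unfold hi at y2
            have f1 : y.re + (c' + 1 / 2) - c' - 1 / 4 = y.re + 1 / 4 := by ring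
            have f2 : y.re + (c' + 1 / 2) - c' - 3 / 4 = y.re - 1 / 4 := by ring
            rw [f1, f2]
            linarith only [him, y2, c1]
          rcases hcc with h | h
          · subst h
            refine disj_of_graph (fun s => G.N + Y c' + bump t (s - c' - 3 / 4)) ?_
            intro z hzA hzB
            obtain ⟨a1, a2, a3, a4, a5, -, -⟩ := fact z hzB
            have b1 := pf z hzA
            have b0 : bump t (z.re - c' - 1 / 4) = 0 := by
              apply bump_zero
              rw [abs_of_nonneg (by linarith only [g1, e1, a1])]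
              linarith only [g1, hc3, e1, a1]
            rw [b0] at b1
            show z.im = _
            linarith only [a5, b1]
          · subst h
            refine disj_of_graph (fun s => G.N + Y (c + 1) + bump t (s - c - 5 / 4)) ?_
            intro z hzA hzB
            obtain ⟨a1, a2, a3, a4, -, a6, -⟩ := fact z hzB
            have b1 := pf z hzA
            push_cast at b1
            have b0 : bump t (z.re - (c + 1) - 3 / 4) = 0 := by
              apply bump_zero
              rw [abs_of_nonpos (by linarith only [g1, e2, a2])]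
              linarith only [g1, hc3, e2, a2]
            rw [b0] at b1
            have f1 : z.re - (c + 1) - 1 / 4 = z.re - c - 5 / 4 := by ring
            rw [f1] at b1
            show z.im = _
            linarith only [a6, b1]
        · have hr2 : r + 2 ≤ G.N := by omega
          have hr3 : (r : ℝ) + 2 ≤ G.N := by exact_mod_cast hr2
          refine disj_of_empty ?_
          intro z hzA hzB
          obtain ⟨-, -, a3, -⟩ := fact z hzB
          have hb := abs_le.mp (tile_bounds ht ht' hzA).2
          linarith only [g1, hc3', hr3, a3, hb.2, p2.2]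
      · refine disj_of_empty ?_
        intro z hzA hzB
        obtain ⟨a1, a2, -⟩ := fact z hzB
        have hb := abs_le.mp (tile_bounds ht ht' hzA).1
        have hcc' : c' + 1 ≤ c ∨ c + 2 ≤ c' := by omega
        rcases hcc' with h | h
        · have : (c' : ℝ) + 1 ≤ c := by exact_mod_cast h
          linarith only [g1, e1, a1, this, hb.2, p1.2]
        · have : (c : ℝ) + 2 ≤ c' := by exact_mod_cast h
          linarith only [g1, e2, a2, this, hb.1, p1.1]
  -- choose
  classical
  refine ⟨fun c => if h : c < G.M ∧ (G.kd c).isL = true then (key c h.1 h.2).choose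
    else mk 0 0, ?_⟩
  intro c hc hL
  simp only
  rw [dif_pos ⟨hc, hL⟩]
  exact (key c hc hL).choose_spec

end Pool.Agent.Helper2_Pak.H68
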