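import Pool.Agent.Helper2_Pak.Stmts

/-!
# PAK1, module R1: the rows
-/

namespace Pool.Agent.Helper2_Pak.H68

open Pool.Agent.Helper2_Pack (Motion)
open Pool.Agent.Helper2_Pak

theorem NearK_mono {e e' : ℝ} {a : ℂ} {k : ℕ} {g : Motion} (h : NearK e a k g) (he : e ≤ e') :
    NearK e' a k g :=
  ⟨h.1, h.2.1.trans he, h.2.2.1.trans he, h.2.2.2.trans he⟩

theorem rot_norm (g : Motion) (k : ℕ) : ‖rot g k‖ = 1 := by
  unfold rot
  rw [norm_mul, norm_pow, norm_neg, Complex.norm_I, one_pow, mul_one, g.unit]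

theorem rot_near {e : ℝ} {a : ℂ} {k : ℕ} {g : Motion} (h : NearK e a k g) :
    ‖rot g k - 1‖ ≤ e := by
  have h1 : (Complex.I ^ k) * (-Complex.I) ^ k = 1 := by
    rw [← mul_pow]
    simp
  have h2 : rot g k - 1 = (g.u - Complex.I ^ k) * (-Complex.I) ^ k := by
    unfold rot
    rw [sub_mul, h1]
  rw [h2, norm_mul, norm_pow, norm_neg, Complex.norm_I, one_pow, mul_one]
  exact h.2.2.2

theorem rot_re_le (g : Motion) (k : ℕ) : (rot g k).re ≤ 1 := by
  have h := Complex.re_le_norm (rot g k)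
  rwa [rot_norm] at h

theorem rot_bounds {a : ℂ} {k : ℕ} {g : Motion} (h : NearK (1 / 512) a k g) :
    511 / 512 ≤ (rot g k).re ∧ |(rot g k).im| ≤ 1 / 512 := by
  have h1 := rot_near h
  constructor
  · have h2 := (Complex.abs_re_le_norm (rot g k - 1)).trans h1
    rw [Complex.sub_re, Complex.one_re] at h2
    have := (abs_le.mp h2).1
    linarith
  · have h2 := (Complex.abs_im_le_norm (rot g k - 1)).trans h1
    rwa [Complex.sub_im, Complex.one_im, sub_zero] at h2

theorem HX_bounds {t : ℝ} (ht : 0 < t) (ht' : t ≤ 1 / 2 ^ 60) (k : ℕ) :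
    1 / 2 ≤ HX t k ∧ HX t k ≤ 1 / 2 + 1 / 1000 := by
  have h1 : t ^ 2 ≤ 1 / 1000 := by
    have : t ≤ 1 / 1000 := ht'.trans (by norm_num)
    nlinarith
  unfold HX hh
  split
  · constructor <;> norm_num
  · constructor
    · nlinarith [sq_nonneg t]
    · linarith

/-- the left line and the right line of a tile are near the sides of the cell -/
theorem lines_near {t : ℝ} (ht : 0 < t) (ht' : t ≤ 1 / 2 ^ 60) {a : ℂ} {k : ℕ} {g : Motion}
    (h : NearK (1 / 512) a k g) :
    |lfL t g k (a.im + 1 / 2) - a.re| ≤ 1 / 16 ∧ |rtL t g k (a.im + 1 / 2) - (a.re + 1)| ≤ 1 / 16 := by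
  obtain ⟨hc, hs⟩ := rot_bounds h
  obtain ⟨hX1, hX2⟩ := HX_bounds ht ht' k
  have hc1 := rot_re_le g k
  have hc0 : 0 < (rot g k).re := by linarith
  have hv1 := abs_le.mp h.2.1
  have hv2 := abs_le.mp h.2.2.1
  rw [Complex.sub_re] at hv1
  rw [Complex.sub_im] at hv2
  have hs' := abs_le.mp hs
  have q1 : 1 / 2 ≤ HX t k / (rot g k).re := by
    rw [le_div_iff₀ hc0]
    nlinarith
  have q2 : HX t k / (rot g k).re ≤ 1 / 2 + 1 / 100 := by
    rw [div_le_iff₀ hc0]
    nlinarith
  have q3 : |(rot g k).im / (rot g k).re * (a.im + 1 / 2 - g.v.im)| ≤ 1 / 100 := by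
    rw [abs_mul, abs_div, abs_of_pos hc0]
    have r1 : |(rot g k).im| / (rot g k).re ≤ 1 / 10 := by
      rw [div_le_iff₀ hc0]
      linarith
    have r2 : |a.im + 1 / 2 - g.v.im| ≤ 1 / 512 := by
      rw [abs_le]
      constructor <;> linarith [hv2.1, hv2.2]
    calc |(rot g k).im| / (rot g k).re * |a.im + 1 / 2 - g.v.im| ≤ 1 / 10 * (1 / 512) := by
          apply mul_le_mul r1 r2 (abs_nonneg _) (by norm_num)
      _ ≤ 1 / 100 := by norm_num
  have q3' := abs_le.mp q3
  unfold lfL rtL
  constructor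
  · rw [abs_le]
    constructor <;> linarith [hv1.1, hv1.2, q3'.1, q3'.2]
  · rw [abs_le]
    constructor <;> linarith [hv1.1, hv1.2, q3'.1, q3'.2]

theorem r1 (hF4 : F4Stmt) (hF8 : F8Stmt) (hG5 : G5Stmt) : R1Stmt := by
  intro t G g k L kL hOK hS hA
  have ht : 0 < t := hS.pos
  have ht' : t ≤ 1 / 2 ^ 60 := by
    have h1 := hS.small
    have h2 : (2 : ℝ) ^ 60 ≤ 2 ^ (32 * G.K + 120) := pow_le_pow_right₀ (by norm_num) (by omega)
    rw [le_div_iff₀ (by positivity)]
    calc t * 2 ^ 60 ≤ t * 2 ^ (32 * G.K + 120) := mul_le_mul_of_nonneg_left h2 ht.le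
      _ ≤ 1 := h1
  have near : ∀ c r, G.pres c r = true → NearK (1 / 512) ⟨c, r⟩ (k c r) (g c r) :=
    fun c r h => NearK_mono (hA.near c r h) (by norm_num)
  refine ⟨?_, ?_, ?_, ?_⟩
  · intro c r h h'
    have n2 := near (c + 1) r h'
    have e : (⟨((c + 1 : ℕ) : ℝ), (r : ℝ)⟩ : ℂ) = ⟨(c : ℝ), (r : ℝ)⟩ + 1 := by
      apply Complex.ext <;> simp
    rw [e] at n2
    refine hF8 t (g c r) (g (c + 1) r) ⟨c, r⟩ (k c r) (k (c + 1) r) (r + 1 / 2) ht ht' (near c r h)
      n2 (by simp) (hA.disj c r (c + 1) r h h' (Or.inl (by omega)))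
  · intro c r h
    have hp : G.pres c r = true := by
      unfold Lay.wallL at h
      rw [Bool.and_eq_true] at h
      exact h.1
    by_contra hlt
    push Not at hlt
    obtain ⟨l1, -⟩ := lines_near ht ht' (near c r hp)
    rw [abs_le] at l1
    simp only at l1
    set l := lfL t (g c r) (k c r) (r + 1 / 2) with hl
    set w : ℝ := (if r % 2 = 1 then t ^ 3 else 0) with hw
    have hw0 : 0 ≤ w := by
      rw [hw]
      split
      · positivity
      · exact le_refl _
    obtain ⟨x, hx1, hx2⟩ := exists_between hlt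
    have hx3 : x < l + 1 / 4 := by linarith [l1.1]
    have hmem := (hF4 t (g c r) ⟨c, r⟩ (k c r) x (r + 1 / 2) ht ht' (near c r hp) (by simp)).2 hx1 hx3
    have hcont := hA.sub c r hp (interior_subset hmem)
    have := (hG5 t G c r hOK hS _ hcont (by
      show |x - c| ≤ 1 / 4
      rw [abs_le]
      constructor <;> linarith [l1.1]) (by simp)).1 h
    have hx4 : (c : ℝ) - w ≤ x := this
    linarith
  · intro c r h
    have hp : G.pres c r = true := by
      unfold Lay.wallR at h
      rw [Bool.and_eq_true, Bool.and_eq_true] at h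
      have := h.1.2
      rwa [Nat.add_sub_cancel] at this
    by_contra hlt
    push Not at hlt
    obtain ⟨-, l1⟩ := lines_near ht ht' (near c r hp)
    rw [abs_le] at l1
    simp only at l1
    set l := rtL t (g c r) (k c r) (r + 1 / 2) with hl
    have hpos : 0 ≤ G.rw t (c + 1) r := by
      unfold Lay.rw Lay.D
      positivity
    set w : ℝ := (if r % 2 = 1 then G.rw t (c + 1) r else 0) with hw
    have hw0 : 0 ≤ w := by
      rw [hw]
      split
      · exact hpos
      · exact le_refl _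
    obtain ⟨x, hx1, hx2⟩ := exists_between hlt
    have hx3 : l - 1 / 4 < x := by linarith [l1.2]
    have hmem := (hF4 t (g c r) ⟨c, r⟩ (k c r) x (r + 1 / 2) ht ht' (near c r hp) (by simp)).1 hx3 hx2
    have hcont := hA.sub c r hp (interior_subset hmem)
    have := (hG5 t G (c + 1) r hOK hS _ hcont (by
      show |x - ((c + 1 : ℕ) : ℝ)| ≤ 1 / 4
      push_cast
      rw [abs_le]
      constructor <;> linarith [l1.2]) (by simp)).2 h
    have hx4 : x ≤ ((c + 1 : ℕ) : ℝ) + w := this
    push_cast at hx4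
    linarith
  · intro c r h
    have hn := near c r h
    obtain ⟨hc, -⟩ := rot_bounds hn
    have hc1 := rot_re_le (g c r) (k c r)
    have hc0 : 0 < (rot (g c r) (k c r)).re := by linarith
    obtain ⟨hX1, -⟩ := HX_bounds ht ht' (k c r)
    have hX0 : 0 < HX t (k c r) := by linarith
    have key : rtL t (g c r) (k c r) (r + 1 / 2) - lfL t (g c r) (k c r) (r + 1 / 2) =
        2 * (HX t (k c r) / (rot (g c r) (k c r)).re) := by
      unfold rtL lfL
      ring
    have hge : HX t (k c r) ≤ HX t (k c r) / (rot (g c r) (k c r)).re := by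
      rw [le_div_iff₀ hc0]
      nlinarith
    refine ⟨by linarith, fun heq => ?_⟩
    have h1 : HX t (k c r) / (rot (g c r) (k c r)).re = HX t (k c r) := by linarith
    rw [div_eq_iff hc0.ne'] at h1
    have h2 : (rot (g c r) (k c r)).re = 1 := by
      have := mul_left_cancel₀ hX0.ne' (show HX t (k c r) * (rot (g c r) (k c r)).re =
        HX t (k c r) * 1 by rw [mul_one]; exact h1.symm)
      exact this
    have h3 := rot_norm (g c r) (k c r)
    have h4 : (rot (g c r) (k c r)).im = 0 := by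
      have h5 := Complex.sq_norm (rot (g c r) (k c r))
      rw [h3, Complex.normSq_apply, h2] at h5
      have : (rot (g c r) (k c r)).im * (rot (g c r) (k c r)).im = 0 := by linarith
      exact mul_self_eq_zero.mp this
    apply Complex.ext
    · rw [h2, Complex.one_re]
    · rw [h4, Complex.one_im]

end Pool.Agent.Helper2_Pak.H68
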